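import Pool.Agent.H13.EC.A2
import Pool.Agent.H62.CJ.Z1
import Pool.Agent.H62.CJ.Z2
import Pool.Agent.H62.CJ.Z3

/-!
# Project EC: the bounds for coefficients and arclengths from `P1_main`
-/

set_option autoImplicit false

open Set Metric MeasureTheory

namespace H62.EC

open H62.CJ

theorem own_coef {a P K β : ℝ} {n : ℕ} (hn : 1 ≤ n) (hK : 0 < K)
    (ha : a ≤ Real.exp 1 / (2 * Real.pi * n) * P)
    (hP : P ≤ K * (1 / (n : ℝ)) ^ (-β)) :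
    a ≤ K * (n : ℝ) ^ (-1 + β) := by
  have hn0 : (0 : ℝ) < n := by exact_mod_cast hn
  have h1 : (1 / (n : ℝ)) ^ (-β) = (n : ℝ) ^ β := by
    rw [one_div, Real.inv_rpow hn0.le, Real.rpow_neg hn0.le, inv_inv]
  rw [h1] at hP
  have he : Real.exp 1 / (2 * Real.pi * n) ≤ (n : ℝ) ^ (-1 : ℝ) := by
    rw [Real.rpow_neg_one, ← one_div, div_le_div_iff₀ (by positivity) hn0]
    have h2 := Real.exp_one_lt_d9
    have h3 := Real.pi_gt_three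
    have h4 : Real.exp 1 ≤ 2 * Real.pi := by linarith
    calc Real.exp 1 * n ≤ 2 * Real.pi * n := mul_le_mul_of_nonneg_right h4 hn0.le
      _ = 1 * (2 * Real.pi * n) := by ring
  have h5 : (n : ℝ) ^ (-1 + β) = (n : ℝ) ^ (-1 : ℝ) * (n : ℝ) ^ β := Real.rpow_add hn0 _ _
  have hpos : 0 ≤ Real.exp 1 / (2 * Real.pi * n) := by positivity
  have hnb : 0 ≤ (n : ℝ) ^ β := Real.rpow_nonneg hn0.le _
  calc a ≤ Real.exp 1 / (2 * Real.pi * n) * P := ha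
    _ ≤ Real.exp 1 / (2 * Real.pi * n) * (K * (n : ℝ) ^ β) :=
      mul_le_mul_of_nonneg_left hP hpos
    _ ≤ (n : ℝ) ^ (-1 : ℝ) * (K * (n : ℝ) ^ β) :=
      mul_le_mul_of_nonneg_right he (by positivity)
    _ = K * (n : ℝ) ^ (-1 + β) := by rw [h5]; ring

theorem own_final : ∃ β C : ℝ, 0 < β ∧ β < 1 / 4 ∧ 0 < C ∧
    (∀ f : ℂ → ℂ, DifferentiableOn ℂ f (ball 0 1) → InjOn f (ball 0 1) → f 0 = 0 →
      (∀ z ∈ ball (0 : ℂ) 1, ‖f z‖ ≤ 1) →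
      (∀ n : ℕ, 1 ≤ n →
        ‖iteratedDeriv n f 0‖ / (n.factorial : ℝ) ≤ C * (n : ℝ) ^ (-1 + β)) ∧
      (∀ ε : ℝ, 0 < ε → ε ≤ 1 →
        ∫ θ in (0 : ℝ)..(2 * Real.pi),
          ‖deriv f (circleMap 0 (Real.exp (-ε)) θ)‖ * Real.exp (-ε) ≤ C * ε ^ (-β))) ∧
    (∀ h : ℂ → ℂ, DifferentiableOn ℂ h (ball 0 1) → h 0 = 0 →
      InjOn (fun z : ℂ => z + h z⁻¹) {z : ℂ | 1 < ‖z‖} →
      (∀ n : ℕ, 1 ≤ n →
        ‖iteratedDeriv n h 0‖ / (n.factorial : ℝ) ≤ C * (n : ℝ) ^ (-1 + β)) ∧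
      (∀ ε : ℝ, 0 < ε → ε ≤ 1 →
        ∫ θ in (0 : ℝ)..(2 * Real.pi),
          ‖deriv (fun z : ℂ => z + h z⁻¹) (circleMap 0 (Real.exp ε) θ)‖ * Real.exp ε ≤
            C * ε ^ (-β))) := by
  obtain ⟨β, hβ, hβ4, hall⟩ := H13.EC.P1_main
  obtain ⟨C1, hC1, h1⟩ := hall 1
  obtain ⟨C2, hC2, h2⟩ := hall (Real.exp 4 + 1)
  have hCC : 0 < C1 + C2 := add_pos hC1 hC2
  have hinv : ∀ n : ℕ, 1 ≤ n → 0 < 1 / (n : ℝ) ∧ 1 / (n : ℝ) ≤ 1 := by
    intro n hn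
    have hn0 : (1 : ℝ) ≤ n := by exact_mod_cast hn
    exact ⟨by positivity, (div_le_one (by linarith)).2 hn0⟩
  refine ⟨β, C1 + C2, hβ, hβ4, hCC, ?_, ?_⟩
  · intro f hd hi h0 hb
    obtain ⟨hcl, hbd⟩ := S1_cls f hd hi h0 hb
    have hP : ∀ y : ℝ, 0 < y → y ≤ 1 → PP (FF f) 1 y ≤ (C1 + C2) * y ^ (-β) := by
      intro y hy hy1
      refine (h1 (FF f) hcl hbd y hy hy1).trans ?_
      exact mul_le_mul_of_nonneg_right (by linarith) (Real.rpow_nonneg hy.le _)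
    refine ⟨?_, ?_⟩
    · intro n hn
      have hc := coeff_bound f hd 0 n hn
      have he : (fun ξ : ℂ => 0 * ξ⁻¹ + f ξ) = f := by
        funext ξ
        rw [zero_mul, zero_add]
      rw [he] at hc
      exact own_coef hn hCC hc (hP _ (hinv n hn).1 (hinv n hn).2)
    · intro ε hε hε1
      rw [← PP_FF f (hd.mono sdiff_subset) ε hε]
      exact hP ε hε hε1
  · intro h hd h0 hi
    obtain ⟨hcl, hbd⟩ := S2_cls h hd h0 hi
    have hP : ∀ y : ℝ, 0 < y → y ≤ 1 →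
        PP (FF (fun ξ => ξ⁻¹ + h ξ)) 1 y ≤ (C1 + C2) * y ^ (-β) := by
      intro y hy hy1
      refine (h2 _ hcl hbd y hy hy1).trans ?_
      exact mul_le_mul_of_nonneg_right (by linarith) (Real.rpow_nonneg hy.le _)
    refine ⟨?_, ?_⟩
    · intro n hn
      have hc := coeff_bound h hd 1 n hn
      have he : (fun ξ : ℂ => 1 * ξ⁻¹ + h ξ) = fun ξ => ξ⁻¹ + h ξ := by
        funext ξ
        rw [one_mul]
      rw [he] at hc
      exact own_coef hn hCC hc (hP _ (hinv n hn).1 (hinv n hn).2)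
    · intro ε hε hε1
      rw [arc_S2 h hd ε hε]
      exact hP ε hε hε1

end H62.EC
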